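import Pool.Agent.Helper41.PS.Goals
import Pool.Agent.Helper51.TU.TL
import Pool.Agent.Helper57.TU.BM
import Pool.Agent.Helper10.TU.BH

/-! # PS-SV1: Brun-Hooley upper bound with `k` classes for the primes of a set `P` -/

set_option autoImplicit false

open Finset

open scoped Classical

namespace Pool.Agent.Helper63.PS.SV1

open Pool.Agent.Helper41.PS
open Pool.Agent.Helper88.TU (Pt rt Ut AA)
open Pool.Agent.Helper88.PP (pr)
open Pool.Agent.Helper64.RR (mem_pr)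
open Pool.Agent.Helper6.RR (per_bound prod_per)
open Pool.Agent.Helper51.TU (sum_pow_le)
open Pool.Agent.Helper57.TU (range_bound sum_exp_le es tr bonferroni sum_biUnion_powerset
  pr_eq_biUnion Pt_disjoint Pt_subset sw sw_eq sw_union prod_le_of exp_le_one_sub es_nonneg)

/-- indicator of `n % p ∈ cl p` -/
noncomputable def si (cl : ℕ → Finset ℕ) (p n : ℕ) : ℝ := if n % p ∈ cl p then 1 else 0

theorem si_nonneg (cl : ℕ → Finset ℕ) (p n : ℕ) : 0 ≤ si cl p n := by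
  unfold si
  split_ifs <;> norm_num

theorem si_sum (cl : ℕ → Finset ℕ) (p : ℕ) (h : ∀ c ∈ cl p, c < p) :
    ∑ n ∈ range p, si cl p n = (cl p).card := by
  have h1 : ∀ n ∈ range p, si cl p n = if n ∈ cl p then (1 : ℝ) else 0 := by
    intro n hn
    unfold si
    rw [Nat.mod_eq_of_lt (mem_range.1 hn)]
  rw [sum_congr rfl h1, ← sum_filter, sum_const, nsmul_eq_mul, mul_one]
  congr 2
  ext n
  simp only [mem_filter, mem_range]
  exact ⟨fun h' => h'.2, fun h' => ⟨h n h', h'⟩⟩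

theorem prod_si (cl : ℕ → Finset ℕ) (A : Finset ℕ) (n : ℕ) :
    ∏ p ∈ A, si cl p n = if ∀ p ∈ A, n % p ∈ cl p then (1 : ℝ) else 0 := by
  split_ifs with h
  · exact prod_eq_one fun p hp => by rw [si, if_pos (h p hp)]
  · push Not at h
    obtain ⟨p, hp, hn⟩ := h
    exact prod_eq_zero hp (by rw [si, if_neg hn])

theorem count_k (x k : ℕ) (cl : ℕ → Finset ℕ) (A : Finset ℕ)
    (hA : ∀ p ∈ A, p.Prime ∧ (cl p).card = k ∧ ∀ c ∈ cl p, c < p) :
    |(((Icc 1 x).filter (fun n => ∀ p ∈ A, n % p ∈ cl p)).card : ℝ)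
      - x * ∏ p ∈ A, ((k : ℝ) / p)| ≤ 2 * (k : ℝ) ^ A.card := by
  have e1 : (((Icc 1 x).filter (fun n => ∀ p ∈ A, n % p ∈ cl p)).card : ℝ) =
      ∑ n ∈ Icc 1 x, ∏ p ∈ A, si cl p n := by
    rw [card_filter]
    push_cast
    exact sum_congr rfl fun n _ => (prod_si cl A n).symm
  obtain ⟨g1, g2⟩ := prod_per (si cl) A (fun p hp => (hA p hp).1) (fun p _ s => by
    unfold si
    rw [Nat.add_mod_right])
  have hm : 0 < ∏ p ∈ A, p := prod_pos fun p hp => (hA p hp).1.pos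
  have hf0 : ∀ n, 0 ≤ ∏ p ∈ A, si cl p n := fun n => prod_nonneg fun p _ => si_nonneg cl p n
  have h3 := per_bound (f := fun n => ∏ p ∈ A, si cl p n) hm g1 hf0 (x + 1)
  have h4 : ∏ p ∈ A, ∑ n ∈ range p, si cl p n = (k : ℝ) ^ A.card := by
    rw [← prod_const]
    refine prod_congr rfl fun p hp => ?_
    rw [si_sum cl p (hA p hp).2.2, (hA p hp).2.1]
  have h5 : (k : ℝ) ^ A.card / ((∏ p ∈ A, p : ℕ) : ℝ) = ∏ p ∈ A, ((k : ℝ) / p) := by
    rw [Nat.cast_prod, prod_div_distrib, prod_const]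
  have h6 : ∏ p ∈ A, si cl p 0 ≤ (k : ℝ) ^ A.card := by
    rw [← h4, ← g2]
    exact single_le_sum (f := fun n => ∏ p ∈ A, si cl p n) (fun n _ => hf0 n)
      (mem_range.2 hm)
  have h7 : 0 ≤ ∏ p ∈ A, ((k : ℝ) / p) := prod_nonneg fun p _ => by positivity
  have h8 : ∏ p ∈ A, ((k : ℝ) / p) ≤ (k : ℝ) ^ A.card := by
    rw [← prod_const]
    refine prod_le_prod (fun p _ => by positivity) fun p hp => ?_
    have : (1 : ℝ) ≤ p := by exact_mod_cast (hA p hp).1.pos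
    exact div_le_self (Nat.cast_nonneg _) this
  rw [g2, h4, h5] at h3
  have h9 : ∑ n ∈ range (x + 1), ∏ p ∈ A, si cl p n =
      ∑ n ∈ Icc 1 x, ∏ p ∈ A, si cl p n + ∏ p ∈ A, si cl p 0 := by
    rw [range_eq_Ico, sum_eq_sum_Ico_succ_bot (by omega : 0 < x + 1), add_comm]
    rfl
  rw [h9] at h3
  push_cast at h3
  rw [e1]
  have h10 := hf0 0
  rw [abs_le] at h3 ⊢
  constructor
  · nlinarith [h3.1, h3.2]
  · nlinarith [h3.1, h3.2]

theorem sum_k (k : ℕ) (F : Finset ℕ) (T : ℕ → Finset ℕ) (M : ℝ) (Ac : Finset (Finset ℕ))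
    (hAc : ∀ A ∈ Ac, |((F.filter (fun n => A ⊆ T n)).card : ℝ)
      - M * ∏ p ∈ A, ((k : ℝ) / p)| ≤ 2 * (k : ℝ) ^ A.card) :
    |∑ n ∈ F, ∑ A ∈ Ac.filter (fun A => A ⊆ T n), (-1 : ℝ) ^ A.card
      - M * ∑ A ∈ Ac, (-1 : ℝ) ^ A.card * ∏ p ∈ A, ((k : ℝ) / p)|
      ≤ 2 * ∑ A ∈ Ac, (k : ℝ) ^ A.card := by
  have h1 : ∑ n ∈ F, ∑ A ∈ Ac.filter (fun A => A ⊆ T n), (-1 : ℝ) ^ A.card =
      ∑ A ∈ Ac, (-1 : ℝ) ^ A.card * ((F.filter (fun n => A ⊆ T n)).card : ℝ) := by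
    simp only [sum_filter]
    rw [sum_comm]
    refine sum_congr rfl fun A _ => ?_
    rw [← sum_filter, sum_const, nsmul_eq_mul, mul_comm]
  rw [h1, mul_sum, ← sum_sub_distrib, mul_sum]
  refine (abs_sum_le_sum_abs _ _).trans (sum_le_sum fun A hA => ?_)
  have h2 : (-1 : ℝ) ^ A.card * ((F.filter (fun n => A ⊆ T n)).card : ℝ)
      - M * ((-1 : ℝ) ^ A.card * ∏ p ∈ A, ((k : ℝ) / p)) =
      (-1 : ℝ) ^ A.card * (((F.filter (fun n => A ⊆ T n)).card : ℝ)
      - M * ∏ p ∈ A, ((k : ℝ) / p)) := by ring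
  rw [h2, abs_mul, abs_pow, abs_neg, abs_one, one_pow, one_mul]
  exact hAc A hA

theorem prod_Ioc (W z : ℕ) (hW : 1 ≤ W) (hz : W ≤ z) :
    ∏ n ∈ Ioc W z, (1 - 1 / (n : ℝ)) = (W : ℝ) / z := by
  induction z, hz using Nat.le_induction with
  | base =>
    have hW' : (W : ℝ) ≠ 0 := by exact_mod_cast (by omega : W ≠ 0)
    rw [Ioc_self, prod_empty, div_self hW']
  | succ m hm ih =>
    have hm' : (m : ℝ) ≠ 0 := by exact_mod_cast (by omega : m ≠ 0)
    rw [← insert_Ioc_right_eq_Ioc_add_one hm, prod_insert (by simp), ih]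
    push_cast
    have h3 : (m : ℝ) + 1 ≠ 0 := by positivity
    field_simp
    ring

/-- `∏_{p ∈ P} (1 - k/p) ≥ z^(-2k)` -/
theorem prod_ge (W z k : ℕ) (P : Finset ℕ) (hW : 2 * k + 2 ≤ W) (hz : W ≤ z)
    (hP : ∀ p ∈ P, W < p ∧ p ≤ z) :
    (1 / (z : ℝ)) ^ (2 * k) ≤ ∏ p ∈ P, (1 - (k : ℝ) / p) := by
  have hz0 : (0 : ℝ) < z := by exact_mod_cast (by omega : 0 < z)
  have hn1 : ∀ n ∈ Ioc W z, 0 ≤ 1 - 1 / (n : ℝ) ∧ 1 - 1 / (n : ℝ) ≤ 1 := by
    intro n hn
    have h := (mem_Ioc.1 hn).1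
    have h' : (1 : ℝ) ≤ n := by exact_mod_cast (by omega : 1 ≤ n)
    constructor
    · rw [sub_nonneg, div_le_one (by linarith)]
      exact h'
    · have : (0 : ℝ) ≤ 1 / (n : ℝ) := by positivity
      linarith
  have hPs : P ⊆ Ioc W z := fun p hp => mem_Ioc.2 (hP p hp)
  have h1 : 1 / (z : ℝ) ≤ ∏ p ∈ P, (1 - 1 / (p : ℝ)) := by
    calc 1 / (z : ℝ) ≤ (W : ℝ) / z := by
          apply div_le_div_of_nonneg_right _ hz0.le
          exact_mod_cast (by omega : 1 ≤ W)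
      _ = ∏ n ∈ Ioc W z, (1 - 1 / (n : ℝ)) := (prod_Ioc W z (by omega) hz).symm
      _ = (∏ n ∈ P, (1 - 1 / (n : ℝ))) * ∏ n ∈ Ioc W z \ P, (1 - 1 / (n : ℝ)) := by
          rw [mul_comm, prod_sdiff hPs]
      _ ≤ (∏ n ∈ P, (1 - 1 / (n : ℝ))) * 1 := by
          apply mul_le_mul_of_nonneg_left
          · exact prod_le_one (fun n hn => (hn1 n (mem_sdiff.1 hn).1).1)
              (fun n hn => (hn1 n (mem_sdiff.1 hn).1).2)
          · exact prod_nonneg fun n hn => (hn1 n (hPs hn)).1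
      _ = _ := mul_one _
  calc (1 / (z : ℝ)) ^ (2 * k) ≤ (∏ p ∈ P, (1 - 1 / (p : ℝ))) ^ (2 * k) :=
        pow_le_pow_left₀ (by positivity) h1 _
    _ = ∏ p ∈ P, (1 - 1 / (p : ℝ)) ^ (2 * k) := by rw [prod_pow]
    _ ≤ _ := by
        refine prod_le_prod (fun p hp => pow_nonneg (hn1 p (hPs hp)).1 _) fun p hp => ?_
        have hpW := (hP p hp).1
        have hp0 : (0 : ℝ) < p := by exact_mod_cast (by omega : 0 < p)
        have h2 : (k : ℝ) / p ≤ 1 / 2 := by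
          rw [div_le_iff₀ hp0]
          have : ((2 * k : ℕ) : ℝ) ≤ p := by exact_mod_cast (by omega : 2 * k ≤ p)
          push_cast at this
          linarith
        refine le_trans ?_ (exp_le_one_sub (by positivity) h2)
        have h3 : 1 - 1 / (p : ℝ) ≤ Real.exp (-(1 / (p : ℝ))) := by
          have := Real.add_one_le_exp (-(1 / (p : ℝ)))
          linarith
        calc (1 - 1 / (p : ℝ)) ^ (2 * k) ≤ Real.exp (-(1 / (p : ℝ))) ^ (2 * k) :=
              pow_le_pow_left₀ (hn1 p (hPs hp)).1 h3 _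
          _ = Real.exp (-(2 * ((k : ℝ) / p))) := by
              rw [← Real.exp_nat_mul]
              congr 1
              push_cast
              ring

/-- the main term -/
theorem main_le : ∃ E0 : ℕ, ∀ E y z k : ℕ, E0 ≤ E → E ^ 2 ≤ y → k ^ 2 ≤ E → 1 ≤ E → 1 ≤ z →
    ∀ P : Finset ℕ, P ⊆ pr y z →
    0 ≤ ∏ p ∈ P, (1 - (k : ℝ) / p) ∧
    ∑ A ∈ (AA E y z).filter (fun A => A ⊆ P), (-1 : ℝ) ^ A.card * ∏ p ∈ A, ((k : ℝ) / p) ≤
      2 * ∏ p ∈ P, (1 - (k : ℝ) / p) := by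
  obtain ⟨E0, hE0⟩ := range_bound
  refine ⟨E0, fun E y z k hE hy hk hE1 hz1 P hP => ?_⟩
  set x : ℕ → ℝ := fun p => (k : ℝ) / p with hx
  set Q : ℕ → Finset ℕ := fun t => P ∩ Pt y z t with hQ
  have hQs : ∀ t, Q t ⊆ Pt y z t := fun t => inter_subset_right
  have hQd : ∀ s t, s ≠ t → Disjoint (Q s) (Q t) := fun s t hst =>
    (Pt_disjoint hst).mono (hQs s) (hQs t)
  have hPQ : (range z).biUnion Q = P := by
    rw [hQ, ← inter_biUnion, ← pr_eq_biUnion hz1]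
    exact inter_eq_left.mpr hP
  set U : ℕ → ℝ := fun t => tr x (Q t) (rt E t + 1) with hU
  set π : ℕ → ℝ := fun t => ∏ p ∈ Q t, (1 - x p) with hπ
  set ε : ℕ → ℝ := fun t => Real.exp (-(3 * (E : ℝ) + t)) with hε
  have hε0 : ∀ t, 0 < ε t := fun t => Real.exp_pos _
  have hrange := fun t => hE0 E y z k t hE hy hk
  have hxQ : ∀ t, ∀ p ∈ Q t, 0 ≤ x p ∧ x p ≤ 1 / 2 := fun t p hp => (hrange t).1 p (hQs t hp)
  have hπ0 : ∀ t, 0 < π t := fun t => prod_pos fun p hp => by linarith [(hxQ t p hp).2]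
  have hπle : ∀ t, ∏ p ∈ Pt y z t, (1 - x p) ≤ π t := by
    intro t
    rw [← prod_sdiff (hQs t)]
    calc (∏ p ∈ Pt y z t \ Q t, (1 - x p)) * ∏ p ∈ Q t, (1 - x p)
        ≤ 1 * ∏ p ∈ Q t, (1 - x p) := by
          apply mul_le_mul_of_nonneg_right _ (hπ0 t).le
          refine prod_le_one (fun p hp => ?_) fun p hp => ?_
          · have := ((hrange t).1 p (mem_sdiff.1 hp).1).2
            change 0 ≤ 1 - (k : ℝ) / p
            linarith
          · have := ((hrange t).1 p (mem_sdiff.1 hp).1).1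
            change 1 - (k : ℝ) / p ≤ 1
            linarith
      _ = π t := one_mul _
  have hVle : ∀ t, es x (Q t) (rt E t + 1) ≤ es x (Pt y z t) (rt E t + 1) := by
    intro t
    unfold es
    refine sum_le_sum_of_subset_of_nonneg ?_ ?_
    · intro A hA
      rw [mem_filter, mem_powerset] at hA ⊢
      exact ⟨hA.1.trans (hQs t), hA.2⟩
    · intro A hA _
      rw [mem_filter, mem_powerset] at hA
      exact prod_nonneg fun p hp => ((hrange t).1 p (hA.1 hp)).1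
  have hVε : ∀ t, es x (Q t) (rt E t + 1) ≤ ε t * π t := by
    intro t
    exact ((hVle t).trans (hrange t).2.2).trans
      (mul_le_mul_of_nonneg_left (hπle t) (hε0 t).le)
  have hodd : ∀ t, (-1 : ℝ) ^ (rt E t + 1) = -1 := by
    intro t
    apply Odd.neg_one_pow
    unfold rt
    exact ⟨E / 256 + t, rfl⟩
  have hbon : ∀ t, π t ≤ U t ∧ U t ≤ (1 + ε t) * π t := by
    intro t
    have h1 := bonferroni x (Q t) (fun p hp => ⟨(hxQ t p hp).1, by
      have := (hxQ t p hp).2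
      linarith⟩) (rt E t + 1)
    rw [hodd t] at h1
    have h2 := hVε t
    constructor
    · linarith [h1.1]
    · linarith [h1.2]
  have hU0 : ∀ t, 0 ≤ U t := fun t => (hπ0 t).le.trans (hbon t).1
  have hgg : ∏ p ∈ P, (1 - (k : ℝ) / p) = ∏ t ∈ range z, π t := by
    conv_lhs => rw [← hPQ]
    rw [prod_biUnion (fun s _ t _ hst => hQd s t hst)]
  have hgg0 : 0 < ∏ t ∈ range z, π t := prod_pos fun t _ => hπ0 t
  have hσ : ∑ t ∈ range z, ε t ≤ 2 * Real.exp (-(3 * (E : ℝ))) := sum_exp_le E z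
  have hEr : (1 : ℝ) ≤ E := by exact_mod_cast hE1
  have hexp3 : Real.exp (-(3 * (E : ℝ))) ≤ 1 / 4 := by
    rw [Real.exp_neg, inv_eq_one_div]
    apply one_div_le_one_div_of_le (by norm_num)
    have := Real.add_one_le_exp (3 * (E : ℝ))
    linarith
  have hprod : ∏ t ∈ range z, (1 + ε t) ≤ 2 := by
    calc ∏ t ∈ range z, (1 + ε t) ≤ ∏ t ∈ range z, Real.exp (ε t) := by
          refine prod_le_prod (fun t _ => by linarith [hε0 t]) fun t _ => ?_
          have := Real.add_one_le_exp (ε t)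
          linarith
      _ = Real.exp (∑ t ∈ range z, ε t) := by rw [Real.exp_sum]
      _ ≤ Real.exp (Real.log 2) := by
          apply Real.exp_le_exp.mpr
          have := Real.log_two_gt_d9
          linarith
      _ = 2 := Real.exp_log (by norm_num)
  have hfac1 : ∑ A ∈ (AA E y z).filter (fun A => A ⊆ P), (-1 : ℝ) ^ A.card *
      ∏ p ∈ A, ((k : ℝ) / p) = ∏ t ∈ range z, U t := by
    have h1 := sum_biUnion_powerset Q hQd
      (fun t B => B.card ≤ rt E t) (sw k) (by simp [sw]) (sw_union k) (range z)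
    rw [hPQ] at h1
    have h2 : (AA E y z).filter (fun A => A ⊆ P) = (P.powerset).filter
        (fun A => ∀ t ∈ range z, (A ∩ Q t).card ≤ rt E t) := by
      unfold AA
      ext A
      simp only [mem_filter, mem_range, mem_powerset]
      have hAQ : A ⊆ P → ∀ t, A ∩ Q t = A ∩ Pt y z t := by
        intro hA t
        rw [hQ, ← inter_assoc, inter_eq_left.mpr hA]
      constructor
      · rintro ⟨⟨a, b⟩, c⟩
        refine ⟨c, fun t ht => ?_⟩
        rw [hAQ c t]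
        exact b t ht
      · rintro ⟨a, b⟩
        refine ⟨⟨a.trans hP, fun t ht => ?_⟩, a⟩
        rw [← hAQ a t]
        exact b t ht
    rw [h2]
    refine Eq.trans ?_ (h1.trans ?_)
    · refine sum_congr ?_ fun A _ => rfl
      ext A
      simp only [mem_filter]
    · refine prod_congr rfl fun t _ => ?_
      change _ = tr x (Q t) (rt E t + 1)
      unfold tr
      refine sum_congr ?_ fun A _ => sw_eq k A
      ext A
      simp only [mem_filter]
      constructor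
      · rintro ⟨a, b⟩
        exact ⟨a, by omega⟩
      · rintro ⟨a, b⟩
        exact ⟨a, by omega⟩
  rw [hfac1, hgg]
  refine ⟨hgg0.le, ?_⟩
  calc ∏ t ∈ range z, U t ≤ ∏ t ∈ range z, ((1 + ε t) * π t) :=
        prod_le_prod (fun t _ => hU0 t) fun t _ => (hbon t).2
    _ = (∏ t ∈ range z, (1 + ε t)) * ∏ t ∈ range z, π t := prod_mul_distrib
    _ ≤ 2 * ∏ t ∈ range z, π t := mul_le_mul_of_nonneg_right hprod hgg0.le

theorem t : StmtSV1 := by
  obtain ⟨E0, hmain⟩ := main_le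
  intro k
  set E := max (max E0 512) (k ^ 2) with hEdef
  have hE0 : E0 ≤ E := (le_max_left _ _).trans (le_max_left _ _)
  have hE512 : 512 ≤ E := (le_max_right _ _).trans (le_max_left _ _)
  have hkE : k ^ 2 ≤ E := le_max_right _ _
  refine ⟨max (E ^ 2) (2 * k + 2), 2 * (E / 32) + 2 * k + 1, 3, le_max_right _ _, by omega,
    by norm_num, fun z x P cl hz hx hP => ?_⟩
  set W := max (E ^ 2) (2 * k + 2) with hWdef
  have hW1 : E ^ 2 ≤ W := le_max_left _ _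
  have hW2 : 2 * k + 2 ≤ W := le_max_right _ _
  have hz2 : 2 ≤ z := by omega
  have hPpr : P ⊆ pr W z := fun p hp =>
    mem_pr.2 ⟨(hP p hp).2.1, (hP p hp).2.2.1, (hP p hp).1⟩
  obtain ⟨hπ0, hM⟩ := hmain E W z k hE0 hW1 hkE (by omega) (by omega) P hPpr
  set π := ∏ p ∈ P, (1 - (k : ℝ) / p) with hπ
  set S : ℕ → Finset ℕ := fun n => P.filter (fun p => n % p ∈ cl p) with hS
  have hSP : ∀ n, S n ⊆ P := fun n => filter_subset _ _
  have hSpr : ∀ n, S n ⊆ pr W z := fun n => (hSP n).trans hPpr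
  set AP := (AA E W z).filter (fun A => A ⊆ P) with hAP
  have hBH := fun n => Pool.Agent.Helper10.TU.bh E W z (S n) hz2 (hSpr n)
  have hcnt : (((Icc 1 x).filter (fun n => ∀ p ∈ P, n % p ∉ cl p)).card : ℝ) =
      ∑ n ∈ Icc 1 x, (if S n = ∅ then (1 : ℝ) else 0) := by
    rw [← sum_filter, sum_const, nsmul_eq_mul, mul_one]
    congr 2
    refine filter_congr fun n _ => ?_
    rw [hS, filter_eq_empty_iff]
  have hcount : ∀ A ∈ AP, |(((Icc 1 x).filter (fun n => A ⊆ S n)).card : ℝ)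
      - x * ∏ p ∈ A, ((k : ℝ) / p)| ≤ 2 * (k : ℝ) ^ A.card := by
    intro A hA
    have hAP' : A ⊆ P := (mem_filter.1 hA).2
    have h1 := count_k x k cl A (fun p hp => ⟨(hP p (hAP' hp)).1, (hP p (hAP' hp)).2.2.2⟩)
    have h2 : (Icc 1 x).filter (fun n => A ⊆ S n) =
        (Icc 1 x).filter (fun n => ∀ p ∈ A, n % p ∈ cl p) := by
      refine filter_congr fun n _ => ?_
      constructor
      · intro h p hp
        exact (mem_filter.1 (h hp)).2
      · intro h p hp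
        exact mem_filter.2 ⟨hAP' hp, h p hp⟩
    rw [h2]
    exact h1
  have hfil : ∀ n, ∏ t ∈ range z, Ut E W z t (S n) =
      ∑ A ∈ AP.filter (fun A => A ⊆ S n), (-1 : ℝ) ^ A.card := by
    intro n
    rw [(hBH n).2.2.2.1]
    refine sum_congr ?_ fun A _ => rfl
    ext A
    rw [hAP]
    simp only [mem_filter]
    exact ⟨fun h => ⟨⟨h.1, h.2.trans (hSP n)⟩, h.2⟩, fun h => ⟨h.1.1, h.2⟩⟩
  have hZ : ∀ A ∈ AP, ∏ p ∈ A, p ≤ z ^ (E / 32) := by
    intro A hA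
    have hA' := (mem_filter.1 hA).1
    unfold AA at hA'
    rw [mem_filter, mem_powerset] at hA'
    exact prod_le_of hz2 hE512 A hA'.1 z fun t ht => (hA'.2 t ht).trans (Nat.le_add_right _ _)
  have hApr : ∀ A ∈ AP, A ⊆ pr W z := fun A hA => (mem_filter.1 hA).2.trans hPpr
  have e2 := sum_k k (Icc 1 x) S x AP hcount
  have e3 := sum_pow_le W z k (z ^ (E / 32)) (by omega) AP hApr hZ
  have e4 : ∑ n ∈ Icc 1 x, (if S n = ∅ then (1 : ℝ) else 0) ≤
      ∑ n ∈ Icc 1 x, ∑ A ∈ AP.filter (fun A => A ⊆ S n), (-1 : ℝ) ^ A.card := by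
    refine sum_le_sum fun n _ => ?_
    rw [← hfil n]
    exact (hBH n).2.1
  rw [hcnt]
  have e5 := (abs_le.1 e2).2
  have hx0 : (0 : ℝ) ≤ x := Nat.cast_nonneg _
  have e6 := mul_le_mul_of_nonneg_left hM hx0
  -- the sizes
  have hz0 : (2 : ℝ) ≤ z := by exact_mod_cast hz2
  have hlow := prod_ge W z k P hW2 hz (fun p hp => ⟨(hP p hp).2.1, (hP p hp).2.2.1⟩)
  have hxr : (z : ℝ) ^ (2 * (E / 32) + 2 * k + 1) ≤ x := by exact_mod_cast hx
  have h7 : (z : ℝ) ^ (2 * (E / 32) + 2 * k + 1) * (1 / (z : ℝ)) ^ (2 * k) ≤ x * π :=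
    mul_le_mul hxr hlow (by positivity) hx0
  have h8 : (z : ℝ) ^ (2 * (E / 32) + 2 * k + 1) * (1 / (z : ℝ)) ^ (2 * k) =
      z * (((z ^ (E / 32) : ℕ) : ℝ)) ^ 2 := by
    have hzne : (z : ℝ) ≠ 0 := by linarith
    push_cast
    rw [one_div, inv_pow, ← pow_mul, show 2 * (E / 32) + 2 * k + 1 =
      (2 * k + 1) + (E / 32) * 2 by ring, pow_add, pow_succ]
    field_simp
  have h9 : 2 * (((z ^ (E / 32) : ℕ) : ℝ)) ^ 2 ≤ z * (((z ^ (E / 32) : ℕ) : ℝ)) ^ 2 :=
    mul_le_mul_of_nonneg_right hz0 (sq_nonneg _)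
  rw [h8] at h7
  linarith

end Pool.Agent.Helper63.PS.SV1
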